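import Pool.Agent.Y160.T8.Stm
import Pool.Agent.Y3.T7.Irr

/-!
# Project T8: irreducibility
-/

set_option autoImplicit false
set_option linter.all false

open Polynomial

namespace Pool.Agent.Y232.T8

open Pool.Agent.Y160.SL (atZero powT)
open Pool.Agent.Y3.T7

section base

variable {E : Type} [Field E]

/-- the polynomial `g(x) + t ^ m` -/
noncomputable def gt (g : E[X]) (m : ℕ) : E[X][X] := g.map C + C (X ^ m)

theorem gt_atZero (g : E[X]) {m : ℕ} (hm : m ≠ 0) : atZero (gt g m) = g := by
  unfold atZero gt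
  rw [Polynomial.map_add, map_C, map_map]
  have h1 : (evalRingHom (0 : E)).comp (C : E →+* E[X]) = RingHom.id E := by
    ext a
    show eval 0 (C a) = a
    rw [eval_C]
  rw [h1, map_id]
  show g + C (eval 0 (X ^ m)) = g
  rw [eval_pow, eval_X, zero_pow hm, C_0, add_zero]

theorem gt_powT (g : E[X]) (m p : ℕ) : powT p (gt g m) = gt g (p * m) := by
  unfold powT gt
  rw [Polynomial.map_add, map_C, map_map]
  have h1 : ((expand E p : E[X] →ₐ[E] E[X]) : E[X] →+* E[X]).comp (C : E →+* E[X]) = C := by
    ext a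
    show (expand E p (C a)).coeff _ = _
    rw [expand_C]
  rw [h1]
  congr 2
  show expand E p (X ^ m) = X ^ (p * m)
  rw [map_pow, expand_X, ← pow_mul]

theorem gt_swap (g : E[X]) (m : ℕ) : Bivariate.swap (gt g m) = C g + X ^ m := by
  unfold gt
  rw [map_add, Bivariate.swap_map_C, C_pow, map_pow, Bivariate.swap_X]

theorem swap_gt (g : E[X]) (m : ℕ) : Bivariate.swap (C g + X ^ m : E[X][X]) = gt g m := by
  unfold gt
  rw [map_add, Bivariate.swap_C, map_pow, Bivariate.swap_Y, C_pow]

theorem dom_gt {p : ℕ} (hp : p.Prime) (g : E[X]) (hs : g.Separable) (hn : 0 < g.natDegree)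
    (s : ℕ) : Dom (gt g (p ^ s)) := by
  induction s with
  | zero =>
    have h1 : Dom (C g + X ^ 1 : E[X][X]) := by
      have h2 := dom_shear (dom_line (E := E)) one_ne_zero g
      rwa [X_comp, C_1, C_1, one_mul, add_comm, ← pow_one (X : E[X][X])] at h2
    rw [pow_zero, ← swap_gt]
    exact dom_swap h1
  | succ s ih =>
    have hm : p ^ s ≠ 0 := pow_ne_zero _ hp.ne_zero
    have h1 := dom_root ih hp (by rwa [gt_atZero g hm]) (by rwa [gt_atZero g hm])
    rw [gt_powT] at h1
    rwa [pow_succ, mul_comm]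

theorem dom_base {p : ℕ} (hp : p.Prime) (g : E[X]) (hs : g.Separable) (hn : 0 < g.natDegree)
    (s : ℕ) : Dom (C g + X ^ (p ^ s) : E[X][X]) := by
  rw [← gt_swap]
  exact dom_swap (dom_gt hp g hs hn s)

/-- the curves `G(t) = 0` -/
theorem dom_C {G : E[X]} (hG : Irreducible G) : Dom (C G : E[X][X]) := by
  haveI : Fact (Irreducible G) := ⟨hG⟩
  have key : ∀ p : E[X][X], eval₂ ((aeval (C (AdjoinRoot.root G) : (AdjoinRoot G)[X]) :
      E[X] →ₐ[E] (AdjoinRoot G)[X]) : E[X] →+* (AdjoinRoot G)[X]) X p =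
      p.map (AdjoinRoot.mk G) := by
    intro p
    have h1 : (eval₂RingHom ((aeval (C (AdjoinRoot.root G) : (AdjoinRoot G)[X]) :
      E[X] →ₐ[E] (AdjoinRoot G)[X]) : E[X] →+* (AdjoinRoot G)[X]) X) =
        mapRingHom (AdjoinRoot.mk G) := by
      apply Polynomial.ringHom_ext'
      · apply Polynomial.ringHom_ext
        · intro a
          show eval₂ _ _ (C (C a)) = map _ (C (C a))
          rw [eval₂_C, map_C, AdjoinRoot.mk_C]
          show aeval _ (C a) = _
          rw [aeval_C]
          rfl
        · show eval₂ _ _ (C X) = map _ (C X)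
          rw [eval₂_C, map_C, AdjoinRoot.mk_X]
          show aeval _ X = _
          rw [aeval_X]
      · show eval₂ _ _ X = map _ X
        rw [eval₂_X, map_X]
    exact congrArg (fun g : E[X][X] →+* (AdjoinRoot G)[X] => g p) h1
  refine ⟨(AdjoinRoot G)[X], inferInstance, inferInstance, inferInstance,
    C (AdjoinRoot.root G), X, ?_, ?_⟩
  · intro z
    obtain ⟨p, hp⟩ := Polynomial.map_surjective (AdjoinRoot.mk G) AdjoinRoot.mk_surjective z
    exact ⟨p, by rw [key, hp]⟩
  · intro p
    rw [key, C_dvd_iff_dvd_coeff]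
    constructor
    · intro h i
      have h1 := congrArg (fun f : (AdjoinRoot G)[X] => f.coeff i) h
      simp only [coeff_map, coeff_zero] at h1
      exact AdjoinRoot.mk_eq_zero.1 h1
    · intro h
      ext i
      rw [coeff_map, coeff_zero]
      exact AdjoinRoot.mk_eq_zero.2 (h i)

/-- `g` is prime -/
theorem prime_of_dom {g : E[X][X]} (h : Dom g) (hm : g ≠ 0) : Prime g := by
  obtain ⟨R, i1, i2, i3, t, x, hP⟩ := h
  refine ⟨hm, ?_, ?_⟩
  · intro hu
    have h1 := (hP.ker 1).2 hu.dvd
    rw [eval₂_one] at h1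
    exact one_ne_zero h1
  · intro a b hab
    have h1 := (hP.ker _).2 hab
    rw [eval₂_mul] at h1
    rcases mul_eq_zero.1 h1 with h2 | h2
    · exact Or.inl ((hP.ker a).1 h2)
    · exact Or.inr ((hP.ker b).1 h2)

end base


section main

open Pool.Agent.Y160.SL (eqOf IndepMod Redei IsTowerData Smooth)

variable {k E : Type} [Field k] [Field E] [Algebra k E]

theorem eqOf_swap {r : ℕ} (q : ℕ) (v : Fin (r + 1) → k[X][X]) (T : k[X][X]) :
    eqOf q (fun j => Bivariate.swap (v j)) (Bivariate.swap T) = Bivariate.swap (eqOf q v T) := by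
  unfold eqOf
  rw [map_add, map_prod, map_pow]

theorem eqOf_comp {r : ℕ} (q : ℕ) (v : Fin (r + 1) → k[X][X]) (T : k[X][X]) (g : k[X][X]) :
    eqOf q (fun j => (v j).comp g) (T.comp g) = (eqOf q v T).comp g := by
  unfold eqOf
  rw [add_comp, prod_comp, pow_comp]

theorem eqOf_powT {r : ℕ} (p q : ℕ) (v : Fin (r + 1) → k[X][X]) (T : k[X][X]) :
    eqOf q (fun j => powT p (v j)) (powT p T) = powT p (eqOf q v T) := by
  unfold eqOf powT
  rw [Polynomial.map_add, Polynomial.map_prod, Polynomial.map_pow]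

theorem dom_eqOf {p q s r : ℕ} (hp : p.Prime) (hq : q = p ^ (s + 1))
    {v : Fin (r + 1) → k[X][X]} {T : k[X][X]} (h : IsTowerData p q r v T) :
    Dom ((eqOf q v T).map (bc k E)) := by
  induction h with
  | base G hG hinj hcop _ =>
    have e : (eqOf q (fun j => C (G j)) X).map (bc k E) =
        C ((∏ j, G j).map (algebraMap k E)) + X ^ (p ^ (s + 1)) := by
      unfold eqOf
      rw [← map_prod, Polynomial.map_add, Polynomial.map_pow, map_X, map_C, hq]
      rfl
    rw [e]
    refine dom_base hp _ ?_ ?_ (s + 1)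
    · refine Separable.map ?_
      refine separable_prod ?_ fun j => (hG j).2.2
      intro i j hij
      show IsCoprime (G i) (G j)
      rw [(hG i).2.1.coprime_iff_not_dvd]
      intro hd
      have h1 : Associated (G i) (G j) := (hG i).2.1.associated_of_dvd (hG j).2.1 hd
      exact hij (hinj (eq_of_monic_of_associated (hG i).1 (hG j).1 h1))
    · rw [natDegree_map]
      rcases Nat.eq_zero_or_pos (∏ j, G j).natDegree with h0 | h0
      · rw [h0, Nat.coprime_zero_right] at hcop
        exact absurd hcop hp.ne_one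
      · exact h0
  | swap v T _ ih =>
    rw [eqOf_swap, swap_bc]
    exact dom_swap ih
  | shear v T c b hc _ ih =>
    rw [eqOf_comp, map_comp, Polynomial.map_add, Polynomial.map_mul, map_C, map_C, map_X, bc_C]
    exact dom_shear ih (by rwa [Ne, map_eq_zero]) _
  | root v T hi hs hc hv hI _ ih =>
    rw [eqOf_powT, powT_bc]
    refine dom_root ih hp ?_ ?_
    · rw [atZero_bc]
      exact hs.map
    · rw [atZero_bc, natDegree_map]
      exact hi.natDegree_pos

theorem st_irr8 : Pool.Agent.Y160.T8.St_irr := by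
  intro p q s r k E F _ _ _ _ _ _ v T hp hq h hm
  have hm' : ((eqOf q v T).map (mapRingHom (algebraMap k E))).Monic := hm.map _
  have h1 : Irreducible ((eqOf q v T).map (mapRingHom (algebraMap k E))) :=
    irr_of_dom (dom_eqOf hp hq h) hm'
  exact (Polynomial.Monic.irreducible_iff_irreducible_map_fraction_map (K := F) hm').1 h1

theorem dom_v {p q r : ℕ} (hp : p.Prime) {v : Fin (r + 1) → k[X][X]} {T : k[X][X]}
    (h : IsTowerData p q r v T) : ∀ j, Dom (v j) := by
  induction h with
  | base G hG hinj hcop _ => exact fun j => dom_C (hG j).2.1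
  | swap v T _ ih => exact fun j => dom_swap (ih j)
  | shear v T c b hc _ ih => exact fun j => dom_shear (ih j) hc b
  | root v T hi hs hc hv hI _ ih => exact fun j => dom_root (ih j) hp (hv j).1 (hv j).2

theorem st_irrV : Pool.Agent.Y160.T8.St_irrV := by
  classical
  intro p q r k _ v T hp h j hu hn K _ _ _
  have h0 : v j ≠ 0 := fun h0 => by rw [h0, natDegree_zero] at hn; exact lt_irrefl _ hn
  have hirr : Irreducible (v j) := (prime_of_dom (dom_v hp h j) h0).irreducible
  have hprim : (v j).IsPrimitive := by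
    intro c hc
    exact isUnit_of_dvd_unit ((C_dvd_iff_dvd_coeff _ _).1 hc _) hu
  exact (hprim.irreducible_iff_irreducible_map_fraction_map (K := K)).1 hirr

end main

end Pool.Agent.Y232.T8
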